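import Pool.Agent.P.MP_9b1908_lc.Trees
import Pool.Agent.P.MP_9b1908_lc.Code

/-!
For every countable alphabet with at least two letters: a tree forcing on finite words and a
Borel set of infinite words that is not measurable for it.
-/

namespace Pool.Agent.Results.MP_9b1908_lc.NonMeasurableBorel

variable {Λ : Type}

/-- The set `[T]` of infinite branches of `T`. -/
def body (T : Set (List Λ)) : Set (ℕ → Λ) := {x | ∀ n, List.ofFn (fun i : Fin n => x i) ∈ T}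

/-- `T` is a perfect tree: closed under initial segments, nonempty, and every node has two
incomparable extensions in `T`. -/
def IsPerfectTree (T : Set (List Λ)) : Prop :=
  (∀ s t, s <+: t → t ∈ T → s ∈ T) ∧ T.Nonempty ∧
    ∀ s ∈ T, ∃ t ∈ T, ∃ u ∈ T, s <+: t ∧ s <+: u ∧ ¬ t <+: u ∧ ¬ u <+: t

/-- `P` is a tree forcing: a family of perfect trees that holds the full tree and, with `T` and
`s ∈ T`, the tree `T_s` of the nodes of `T` comparable with `s`. -/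
def IsTreeForcing (P : Set (Set (List Λ))) : Prop :=
  (∀ T ∈ P, IsPerfectTree T) ∧ Set.univ ∈ P ∧
    ∀ T ∈ P, ∀ s ∈ T, {t ∈ T | t <+: s ∨ s <+: t} ∈ P

/-- `A` is `P`-nowhere dense. -/
def NowhereDense (P : Set (Set (List Λ))) (A : Set (ℕ → Λ)) : Prop :=
  ∀ T ∈ P, ∃ S ∈ P, S ⊆ T ∧ body S ∩ A = ∅

/-- `A` lies in the σ-ideal generated by the `P`-nowhere dense sets. -/
def InIdeal (P : Set (Set (List Λ))) (A : Set (ℕ → Λ)) : Prop :=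
  ∃ N : ℕ → Set (ℕ → Λ), (∀ k, NowhereDense P (N k)) ∧ A ⊆ ⋃ k, N k

/-- `A` is `P`-measurable. -/
def IsMeasurableFor (P : Set (Set (List Λ))) (A : Set (ℕ → Λ)) : Prop :=
  ∀ T ∈ P, ∃ S ∈ P, S ⊆ T ∧ (InIdeal P (body S \ A) ∨ InIdeal P (body S ∩ A))

open Pool.Agent.P.MP_9b1908_lc in
theorem baire : ∃ P : Set (Set (List ℕ)), IsTreeForcing P ∧
    ∃ A : Set (ℕ → ℕ), MeasurableSet A ∧ ¬ IsMeasurableFor P A := by
  refine ⟨Set.range Cond.tree, ⟨?_, exists_tree_eq_univ, ?_⟩, GSet, measurableSet_GSet, fun h => ?_⟩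
  · rintro _ ⟨q, rfl⟩
    exact ⟨q.tree_closed, ⟨[], fun j hj => absurd hj (Nat.not_lt_zero _)⟩, q.tree_split⟩
  · rintro _ ⟨q, rfl⟩ s hs
    exact q.exists_tree_below s hs
  · obtain ⟨_, ⟨q, rfl⟩, -, ⟨N, hN, hsub⟩ | ⟨N, hN, hsub⟩⟩ := h _ exists_tree_eq_univ
    · obtain ⟨x, hx, hG, hk⟩ := exists_notMem_GSet q N fun k => nwd_of_trees (hN k)
      obtain ⟨k, hk'⟩ := Set.mem_iUnion.1 (hsub ⟨(q.ofFn_mem_tree_iff x).2 hx, hG⟩)
      exact hk k hk'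
    · obtain ⟨x, hx, hG, hk⟩ := exists_mem_GSet q N fun k => nwd_of_trees (hN k)
      obtain ⟨k, hk'⟩ := Set.mem_iUnion.1 (hsub ⟨(q.ofFn_mem_tree_iff x).2 hx, hG⟩)
      exact hk k hk'

theorem perfect_below {R : Set (List Λ)} (hR : IsPerfectTree R) {u : List Λ} (hu : u ∈ R) :
    IsPerfectTree {t ∈ R | t <+: u ∨ u <+: t} := by
  refine ⟨fun s t hst ht => ⟨hR.1 s t hst ht.1, ?_⟩, ⟨u, hu, Or.inl (List.prefix_refl u)⟩, ?_⟩
  · rcases ht.2 with h | h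
    · exact Or.inl (hst.trans h)
    · exact List.prefix_or_prefix_of_prefix hst h
  · rintro s ⟨hs, h | h⟩
    · obtain ⟨t, ht, v, hv, h1, h2, h3, h4⟩ := hR.2.2 u hu
      exact ⟨t, ⟨ht, Or.inr h1⟩, v, ⟨hv, Or.inr h2⟩, h.trans h1, h.trans h2, h3, h4⟩
    · obtain ⟨t, ht, v, hv, h1, h2, h3, h4⟩ := hR.2.2 s hs
      exact ⟨t, ⟨ht, Or.inr (h.trans h1)⟩, v, ⟨hv, Or.inr (h.trans h2)⟩, h1, h2, h3, h4⟩

open Pool.Agent.P.MP_9b1908_lc.Code in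
theorem result (Λ : Type) [Countable Λ] [Nontrivial Λ] [TopologicalSpace Λ]
    [DiscreteTopology Λ] : ∃ P : Set (Set (List Λ)), IsTreeForcing P ∧
    ∃ A : Set (ℕ → Λ), @MeasurableSet (ℕ → Λ) (borel (ℕ → Λ)) A ∧ ¬ IsMeasurableFor P A := by
  obtain ⟨P, ⟨hP1, hP2, hP3⟩, A, hA, hnA⟩ := baire
  obtain ⟨w, h1, h2, h3⟩ := exists_code Λ
  obtain ⟨F, hFc, hFi, hF⟩ := exists_map h1 h2
  let st : Set (List ℕ) → Set (List Λ) := fun T => {u | ∃ s ∈ T, u <+: s.flatMap w}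
  let Q : Set (Set (List Λ)) :=
    {R | IsPerfectTree R ∧ ∀ u ∈ R, ∃ S ∈ P, st S ⊆ {t ∈ R | t <+: u ∨ u <+: t}}
  have hst : ∀ T ∈ P, st T ∈ Q := by
    intro T hT
    obtain ⟨-, ⟨s0, hs0⟩, hsp⟩ := hP1 T hT
    refine ⟨⟨?_, ⟨[], s0, hs0, List.nil_prefix⟩, ?_⟩, ?_⟩
    · rintro u v huv ⟨s, hs, h⟩
      exact ⟨s, hs, huv.trans h⟩
    · rintro u ⟨s, hs, h⟩
      obtain ⟨t, ht, v, hv, k1, k2, k3, k4⟩ := hsp s hs
      exact ⟨_, ⟨t, ht, List.prefix_refl _⟩, _, ⟨v, hv, List.prefix_refl _⟩,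
        h.trans (code_mono w k1), h.trans (code_mono w k2),
        fun k => k3 (prefix_of_code h1 h2 _ _ k), fun k => k4 (prefix_of_code h1 h2 _ _ k)⟩
    · rintro u ⟨s, hs, h⟩
      refine ⟨_, hP3 T hT s hs, ?_⟩
      rintro v ⟨t, ⟨ht, k | k⟩, hv⟩
      · exact ⟨⟨t, ht, hv⟩, List.prefix_or_prefix_of_prefix (hv.trans (code_mono w k)) h⟩
      · exact ⟨⟨t, ht, hv⟩, List.prefix_or_prefix_of_prefix hv (h.trans (code_mono w k))⟩
  have huniv : st Set.univ = Set.univ := by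
    refine Set.eq_univ_of_forall fun u => ?_
    obtain ⟨s, hs⟩ := h3 u
    exact ⟨s, trivial, hs⟩
  have hdense : ∀ T ∈ P, ∀ R ∈ Q, R ⊆ st T → ∃ S ∈ P, S ⊆ T ∧ ∀ x ∈ body S, F x ∈ body R := by
    intro T hT R hR hRT
    obtain ⟨u, hu⟩ := hR.1.2.1
    obtain ⟨S, hS, hSR⟩ := hR.2 u hu
    refine ⟨S, hS, fun s hs => ?_, fun x hx n => (hSR ⟨_, hx n, hF x n⟩).1⟩
    obtain ⟨t, ht, k⟩ := hRT (hSR ⟨s, hs, List.prefix_refl _⟩).1
    exact (hP1 T hT).1 s t (prefix_of_code h1 h2 _ _ k) ht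
  have hnwd : ∀ N, NowhereDense Q N → NowhereDense P (F ⁻¹' N) := by
    intro N hN T hT
    obtain ⟨R, hR, hRT, hRN⟩ := hN _ (hst T hT)
    obtain ⟨S, hS, hST, hb⟩ := hdense T hT R hR hRT
    refine ⟨S, hS, hST, Set.eq_empty_of_forall_notMem fun x hx => ?_⟩
    have : F x ∈ body R ∩ N := ⟨hb x hx.1, hx.2⟩
    rw [hRN] at this
    exact this
  refine ⟨Q, ⟨fun R hR => hR.1, huniv ▸ hst _ hP2, ?_⟩, F '' A, ?_, fun h => hnA ?_⟩
  · intro R hR u hu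
    refine ⟨perfect_below hR.1 hu, ?_⟩
    rintro v ⟨hv, k | k⟩
    · obtain ⟨S, hS, hSR⟩ := hR.2 u hu
      refine ⟨S, hS, fun t ht => ⟨hSR ht, ?_⟩⟩
      rcases (hSR ht).2 with k' | k'
      · exact List.prefix_or_prefix_of_prefix k' k
      · exact Or.inr (k.trans k')
    · obtain ⟨S, hS, hSR⟩ := hR.2 v hv
      refine ⟨S, hS, fun t ht => ⟨⟨(hSR ht).1, ?_⟩, (hSR ht).2⟩⟩
      rcases (hSR ht).2 with k' | k'
      · exact List.prefix_or_prefix_of_prefix k' k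
      · exact Or.inr (k.trans k')
  · let _ : MeasurableSpace (ℕ → Λ) := borel (ℕ → Λ)
    have : BorelSpace (ℕ → Λ) := ⟨rfl⟩
    exact hA.image_of_continuousOn_injOn hFc.continuousOn hFi.injOn
  · intro T hT
    obtain ⟨R, hR, hRT, hI⟩ := h _ (hst T hT)
    obtain ⟨S, hS, hST, hb⟩ := hdense T hT R hR hRT
    refine ⟨S, hS, hST, ?_⟩
    rcases hI with ⟨N, hN, hsub⟩ | ⟨N, hN, hsub⟩
    · refine Or.inl ⟨fun k => F ⁻¹' N k, fun k => hnwd _ (hN k), fun x hx => ?_⟩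
      have : F x ∈ body R \ F '' A := ⟨hb x hx.1, fun k => hx.2 ((hFi.mem_set_image).1 k)⟩
      obtain ⟨k, hk⟩ := Set.mem_iUnion.1 (hsub this)
      exact Set.mem_iUnion.2 ⟨k, hk⟩
    · refine Or.inr ⟨fun k => F ⁻¹' N k, fun k => hnwd _ (hN k), fun x hx => ?_⟩
      have : F x ∈ body R ∩ F '' A := ⟨hb x hx.1, Set.mem_image_of_mem F hx.2⟩
      obtain ⟨k, hk⟩ := Set.mem_iUnion.1 (hsub this)
      exact Set.mem_iUnion.2 ⟨k, hk⟩

end Pool.Agent.Results.MP_9b1908_lc.NonMeasurableBorel
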